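import Pool.Agent.Lib.MP_1f7bca_co.Props

set_option autoImplicit false

namespace Pool.Agent.Lib.MP_1f7bca_co

open Set Matroid Module

/-- the linear map `v ↦ (u ⬝ v)_{u ∈ ground}` -/
noncomputable def Lmap (n : ℕ) : (Fin n → ZMod 2) →ₗ[ZMod 2] (ground n → ZMod 2) where
  toFun v := fun u => u.1 ⬝ᵥ v
  map_add' v w := by
    funext u
    simp [dotProduct_add]
  map_smul' c v := by
    funext u
    simp [dotProduct_smul]

open scoped Classical in
noncomputable def phi (n : ℕ) (u : Fin n → ZMod 2) :
    (ground n → ZMod 2) ⧸ (LinearMap.range (Lmap n)) :=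
  if h : u ∈ ground n then Submodule.Quotient.mk (Pi.single ⟨u, h⟩ 1) else 0

lemma comb_phi {n : ℕ} (l : (Fin n → ZMod 2) →₀ ZMod 2) :
    Finsupp.linearCombination (ZMod 2) (phi n) l =
      Submodule.Quotient.mk (fun u : ground n => l u.1) := by
  classical
  rw [Finsupp.linearCombination_apply, Finsupp.sum_fintype _ _ (by simp)]
  have h1 : (fun u : ground n => l u.1) = ∑ u : ground n, l u.1 • (Pi.single u (1 : ZMod 2)) := by
    funext w
    simp [Finset.sum_apply, Pi.single_apply]
  rw [h1]
  have h2 : (Submodule.Quotient.mk (∑ u : ground n, l u.1 • (Pi.single u (1 : ZMod 2) :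
      ground n → ZMod 2)) : (ground n → ZMod 2) ⧸ (LinearMap.range (Lmap n))) =
      ∑ u : ground n, l u.1 • Submodule.Quotient.mk (Pi.single u (1 : ZMod 2)) := by
    rw [← Submodule.mkQ_apply, map_sum]
    simp
  rw [h2]
  rw [← Finset.sum_subset (Finset.subset_univ (Finset.univ.filter (fun u => u ∈ ground n)))]
  · symm
    apply Finset.sum_bij (fun (u : ground n) _ => u.1)
    · intro a _
      simp
    · intro a _ b _ h
      exact Subtype.ext h
    · intro b hb
      simp only [Finset.mem_filter, Finset.mem_univ, true_and] at hb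
      exact ⟨⟨b, hb⟩, Finset.mem_univ _, rfl⟩
    · intro a _
      simp [phi]
  · intro x _ hx
    simp only [Finset.mem_filter, Finset.mem_univ, true_and] at hx
    simp [phi, hx]

lemma isBinary_dual {n : ℕ} (hn : 3 ≤ n) : IsBinary (pgMinus n)✶ := by
  refine ⟨_, inferInstance, inferInstance, phi n, ?_⟩
  intro I hI
  simp only [dual_ground, pgMinus_ground] at hI
  rw [dual_indep_iff (by omega), linearIndepOn_iff]
  constructor
  · rintro ⟨-, h⟩ l hl hl0
    rw [comb_phi, Submodule.Quotient.mk_eq_zero, LinearMap.mem_range] at hl0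
    obtain ⟨v, hv⟩ := hl0
    have hv' : ∀ u ∈ ground n, u ⬝ᵥ v = l u := fun u hu => congrFun hv ⟨u, hu⟩
    have hsupp : ∀ u, l u ≠ 0 → u ∈ I := by
      intro u hu
      exact (Finsupp.mem_supported (ZMod 2) l).mp hl (by simpa using hu)
    have hv0 : v = 0 := by
      by_contra hv0
      apply h v hv0
      rintro u ⟨huE, huv⟩
      apply hsupp
      rwa [← hv' u huE]
    ext u
    by_contra hu
    have huI := hsupp u (by simpa using hu)
    apply hu
    rw [← hv' u (hI huI), hv0]
    simp
  · intro h
    refine ⟨hI, ?_⟩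
    intro v hv hsub
    classical
    let l : (Fin n → ZMod 2) →₀ ZMod 2 := Finsupp.equivFunOnFinite.symm
      (fun u => if u ∈ ground n then u ⬝ᵥ v else 0)
    have hl : ∀ u ∈ ground n, l u = u ⬝ᵥ v := by
      intro u hu
      simp [l, hu]
    have hlI : l ∈ Finsupp.supported (ZMod 2) (ZMod 2) I := by
      rw [Finsupp.mem_supported]
      intro u hu
      simp only [SetLike.mem_coe, Finsupp.mem_support_iff, ne_eq] at hu
      by_cases huE : u ∈ ground n
      · rw [hl u huE] at hu
        exact hsub ⟨huE, hu⟩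
      · simp [l, huE] at hu
    have h0 := h l hlI (by
      rw [comb_phi, Submodule.Quotient.mk_eq_zero, LinearMap.mem_range]
      refine ⟨v, ?_⟩
      funext u
      exact (hl u.1 u.2).symm)
    apply hv
    apply D_injective hn
    rw [D_zero, Set.eq_empty_iff_forall_notMem]
    rintro u ⟨huE, huv⟩
    apply huv
    rw [← hl u huE, h0]
    simp

end Pool.Agent.Lib.MP_1f7bca_co
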