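import Mathlib

set_option autoImplicit false

namespace Pool.Agent.Lib.MP_1f7bca_co

open Set Matroid

/-- `M` is a binary matroid: it is representable by vectors over the two-element field. -/
def IsBinary {α : Type} (M : Matroid α) : Prop :=
  ∃ (W : Type) (_ : AddCommGroup W) (_ : Module (ZMod 2) W) (φ : α → W),
    ∀ I : Set α, I ⊆ M.E → (M.Indep I ↔ LinearIndepOn (ZMod 2) φ I)

/-- `M` is simple: every circuit has at least three elements (no loops, no parallel pairs). -/
def IsSimple {α : Type} (M : Matroid α) : Prop := ∀ C, M.IsCircuit C → 3 ≤ C.encard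

/-- `M` is cosimple: its dual is simple (no coloops, no series pairs). -/
def IsCosimple {α : Type} (M : Matroid α) : Prop := IsSimple M✶

/-- `M` is connected: the ground set is nonempty and any two distinct elements lie in a
common circuit. -/
def IsConnected {α : Type} (M : Matroid α) : Prop :=
  M.E.Nonempty ∧ ∀ e ∈ M.E, ∀ f ∈ M.E, e ≠ f → ∃ C, M.IsCircuit C ∧ e ∈ C ∧ f ∈ C

/-- `RestrictedMinor M N`: the matroid `N` is obtained from `M` by a finite sequence of deletions
of an element, contractions of an element in a cocircuit of size two (series contractions) and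
contractions of a coloop, each operation being applied to the current matroid. -/
inductive RestrictedMinor {α : Type} (M : Matroid α) : Matroid α → Prop
  | refl : RestrictedMinor M M
  | delete (N : Matroid α) (h : RestrictedMinor M N) (e : α) (he : e ∈ N.E) :
      RestrictedMinor M (N ＼ {e})
  | series (N : Matroid α) (h : RestrictedMinor M N) (e f : α) (hef : e ≠ f)
      (hc : N✶.IsCircuit {e, f}) : RestrictedMinor M (N ／ {e})
  | coloop (N : Matroid α) (h : RestrictedMinor M N) (e : α) (he : N.IsColoop e) :
      RestrictedMinor M (N ／ {e})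

/-- `N` is isomorphic to `M(K₅)*`: there is a bijection from the ground set of `N` to the edge
set of the complete graph `K₅` under which the independent sets of the dual `N✶` are exactly the
acyclic edge sets (forests) of `K₅`. -/
def IsoDualCycleMatroidK5 {α : Type} (N : Matroid α) : Prop :=
  ∃ f : α → Sym2 (Fin 5), Set.BijOn f N.E (⊤ : SimpleGraph (Fin 5)).edgeSet ∧
    ∀ I : Set α, I ⊆ N.E → (N✶.Indep I ↔ (SimpleGraph.fromEdgeSet (f '' I)).IsAcyclic)

/-- `M` has an `M(K₅)*`-restricted minor. -/
def HasRestrictedMinorDualK5 {α : Type} (M : Matroid α) : Prop :=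
  ∃ N : Matroid α, RestrictedMinor M N ∧ IsoDualCycleMatroidK5 N

/-- A cycle of `M`: a (possibly empty) disjoint union of circuits. -/
def IsCycle {α : Type} (M : Matroid α) (D : Set α) : Prop :=
  ∃ 𝒞 : Set (Set α), (∀ C ∈ 𝒞, M.IsCircuit C) ∧ 𝒞.PairwiseDisjoint id ∧ D = ⋃₀ 𝒞

/-- The type of cycles of `M`. -/
abbrev Cyc {α : Type} (M : Matroid α) : Type := {D : Set α // IsCycle M D}

open scoped Classical in
/-- The algebra map `K[x_D : D a cycle of M] → K[s, t_e]`, `x_D ↦ s ∏_{e ∈ D} t_e`
(the variable `none` is `s`, the variable `some e` is `t_e`). -/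
noncomputable def cycleMap (K : Type*) [Field K] {α : Type} [Fintype α] (M : Matroid α) :
    MvPolynomial (Cyc M) K →ₐ[K] MvPolynomial (Option α) K :=
  MvPolynomial.aeval (fun D : Cyc M =>
    MvPolynomial.X none * ∏ e ∈ Finset.univ.filter (fun e => e ∈ D.1), MvPolynomial.X (some e))

/-- The cycle ideal of `M`: the kernel of `cycleMap`. -/
noncomputable def cycleIdeal (K : Type*) [Field K] {α : Type} [Fintype α] (M : Matroid α) :
    Ideal (MvPolynomial (Cyc M) K) := RingHom.ker (cycleMap K M)

/-- `G` is a minimal homogeneous generating set of the ideal `I`: its elements are homogeneous,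
it generates `I`, and no proper subset of it generates `I`. -/
def IsMinHomGen {σ : Type*} {K : Type*} [Field K] (I : Ideal (MvPolynomial σ K))
    (G : Set (MvPolynomial σ K)) : Prop :=
  (∀ g ∈ G, ∃ d : ℕ, g.IsHomogeneous d) ∧ Ideal.span G = I ∧
    ∀ G' : Set (MvPolynomial σ K), G' ⊂ G → Ideal.span G' ≠ I

end Pool.Agent.Lib.MP_1f7bca_co
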