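import Pool.Agent.Lib.MP_1f7bca_co.Minor

set_option autoImplicit false

namespace Pool.Agent.Lib.MP_1f7bca_co

open Set Matroid Module

lemma acyclic_three (x : Sym2 (Fin 5)) :
    (SimpleGraph.fromEdgeSet ({s(0, 1), s(2, 3), x} : Set (Sym2 (Fin 5)))).IsAcyclic := by
  classical
  intro v c hc
  have h3 := hc.three_le_length
  have hnd : c.edges.Nodup := hc.edges_nodup
  have hsub : ∀ e ∈ c.edges, e ∈ ({s(0, 1), s(2, 3), x} : Finset (Sym2 (Fin 5))) := by
    intro e he
    have h1 := c.edges_subset_edgeSet he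
    rw [SimpleGraph.edgeSet_fromEdgeSet] at h1
    simpa using h1.1
  have hsubF : c.edges.toFinset ⊆ ({s(0, 1), s(2, 3), x} : Finset (Sym2 (Fin 5))) := by
    intro e he
    exact hsub e (List.mem_toFinset.mp he)
  have hcard : c.edges.toFinset.card = c.length := by
    rw [List.toFinset_card_of_nodup hnd, SimpleGraph.Walk.length_edges]
  have hle : ({s(0, 1), s(2, 3), x} : Finset (Sym2 (Fin 5))).card ≤ 3 := Finset.card_le_three
  have hlen : c.length = 3 := by
    have := Finset.card_le_card hsubF
    omega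
  have heq : c.edges.toFinset = ({s(0, 1), s(2, 3), x} : Finset (Sym2 (Fin 5))) :=
    Finset.eq_of_subset_of_card_le hsubF (by omega)
  have h01 : s(0, 1) ∈ c.edges := by
    rw [← List.mem_toFinset, heq]; simp
  have h23 : s(2, 3) ∈ c.edges := by
    rw [← List.mem_toFinset, heq]; simp
  have m0 := c.fst_mem_support_of_mem_edges h01
  have m1 := c.snd_mem_support_of_mem_edges h01
  have m2 := c.fst_mem_support_of_mem_edges h23
  have m3 := c.snd_mem_support_of_mem_edges h23
  have htail : ∀ w ∈ c.support, w ∈ c.support.tail := by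
    intro w hw
    rcases (SimpleGraph.Walk.mem_support_iff c).mp hw with rfl | h
    · exact SimpleGraph.Walk.end_mem_tail_support hc.not_nil
    · exact h
  have hsub4 : ({0, 1, 2, 3} : Finset (Fin 5)) ⊆ c.support.tail.toFinset := by
    intro w hw
    simp only [Finset.mem_insert, Finset.mem_singleton] at hw
    rw [List.mem_toFinset]
    rcases hw with rfl | rfl | rfl | rfl
    · exact htail _ m0
    · exact htail _ m1
    · exact htail _ m2
    · exact htail _ m3
  have h4 := Finset.card_le_card hsub4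
  have h5 := List.toFinset_card_le c.support.tail
  have h6 : c.support.tail.length = c.length := by
    rw [List.length_tail, SimpleGraph.Walk.length_support]
    rfl
  have h7 : ({0, 1, 2, 3} : Finset (Fin 5)).card = 4 := by decide
  omega

lemma ncard_ground (n : ℕ) (hn : 1 ≤ n) : (ground n).ncard + 2 = 2 ^ n := by
  classical
  have h1 : ground n = ↑((Finset.univ.erase (0 : Fin n → ZMod 2)).erase 1) := by
    ext u
    simp [ground]
  rw [h1, Set.ncard_coe_finset, Finset.card_erase_of_mem, Finset.card_erase_of_mem (Finset.mem_univ _),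
    Finset.card_univ, Fintype.card_fun, ZMod.card, Fintype.card_fin]
  · have : 2 ^ 1 ≤ 2 ^ n := Nat.pow_le_pow_right (by norm_num) hn
    omega
  · rw [Finset.mem_erase]
    refine ⟨?_, Finset.mem_univ _⟩
    intro h
    have := congrFun h ⟨0, by omega⟩
    simp at this

lemma ncard_K5 : ((⊤ : SimpleGraph (Fin 5)).edgeSet).ncard = 10 := by
  rw [Set.ncard_eq_toFinset_card']
  have := SimpleGraph.card_edgeFinset_top_eq_card_choose_two (V := Fin 5)
  rw [Fintype.card_fin] at this
  exact this

lemma no_T_K5 {α : Type} (N : Matroid α) (hT : T N✶) : ¬ IsoDualCycleMatroidK5 N := by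
  rintro ⟨f, hf, hI⟩
  have h01 : s(0, 1) ∈ (⊤ : SimpleGraph (Fin 5)).edgeSet := by
    rw [SimpleGraph.mem_edgeSet]; simp
  have h23 : s(2, 3) ∈ (⊤ : SimpleGraph (Fin 5)).edgeSet := by
    rw [SimpleGraph.mem_edgeSet]; simp
  obtain ⟨a, ha, hfa⟩ := hf.surjOn h01
  obtain ⟨b, hb, hfb⟩ := hf.surjOn h23
  have hab : a ≠ b := by
    rintro rfl
    rw [hfa] at hfb
    exact absurd hfb (by decide)
  have key : ∀ x ∈ N.E, N✶.Indep {a, b, x} := by
    intro x hx
    rw [hI _ (Set.insert_subset ha (Set.insert_subset hb (Set.singleton_subset_iff.mpr hx)))]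
    rw [Set.image_insert_eq, Set.image_insert_eq, Set.image_singleton, hfa, hfb]
    exact acyclic_three _
  have hind : N✶.Indep {a, b} := (key a ha).subset (by
    intro y hy
    simp only [Set.mem_insert_iff, Set.mem_singleton_iff] at hy ⊢
    tauto)
  obtain ⟨c, hcE, hc1, hc2, hc3⟩ := hT a ha b hb hab hind
  have hca : c ∉ ({a, b} : Set α) := by
    rintro (rfl | hcb)
    · exact hc2 (N✶.mem_closure_of_mem' rfl ha)
    · rw [Set.mem_singleton_iff] at hcb
      subst hcb
      exact hc3 (N✶.mem_closure_of_mem' rfl hb)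
  have hdep := (hind.mem_closure_iff_of_notMem hca).mp hc1
  apply hdep.not_indep
  apply (key c hcE).subset
  intro y hy
  simp only [Set.mem_insert_iff, Set.mem_singleton_iff] at hy ⊢
  tauto

lemma no_minor {n : ℕ} (hn : 3 ≤ n) : ¬ HasRestrictedMinorDualK5 (pgMinus n)✶ := by
  rintro ⟨N, hN, hiso⟩
  rcases restrictedMinor_cases N hN with rfl | hT
  · obtain ⟨f, hf, -⟩ := hiso
    have h1 := hf.injOn.ncard_image
    rw [hf.image_eq, ncard_K5, dual_ground, pgMinus_ground] at h1
    have h2 := ncard_ground n (by omega)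
    have h3 : 2 ^ n = 12 := by omega
    have h4 : n < 4 := by
      by_contra h
      have : 2 ^ 4 ≤ 2 ^ n := Nat.pow_le_pow_right (by norm_num) (by omega)
      omega
    interval_cases n
    omega
  · exact no_T_K5 N hT hiso

end Pool.Agent.Lib.MP_1f7bca_co
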