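import Pool.Agent.Lib.MP_1f7bca_co.Defs

set_option autoImplicit false

namespace Pool.Agent.Lib.MP_1f7bca_co

open Set Matroid Module

/-- The ground set: all vectors of `F_2^n` except the zero vector and the all-ones vector. -/
def ground (n : ℕ) : Set (Fin n → ZMod 2) := {u | u ≠ 0 ∧ u ≠ 1}

lemma aug_aux {n : ℕ} (I J : Set (Fin n → ZMod 2)) (hIE : I ⊆ ground n)
    (hI : LinearIndepOn (ZMod 2) id I) (hJE : J ⊆ ground n)
    (hJ : LinearIndepOn (ZMod 2) id J) (hcard : I.ncard < J.ncard) :
    ∃ e ∈ J, e ∉ I ∧ (insert e I ⊆ ground n ∧ LinearIndepOn (ZMod 2) id (insert e I)) := by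
  classical
  by_contra hcon
  have hJspan : J ⊆ (Submodule.span (ZMod 2) I : Set (Fin n → ZMod 2)) := by
    intro e heJ
    by_cases heI : e ∈ I
    · exact Submodule.subset_span heI
    · by_contra hspan
      apply hcon
      refine ⟨e, heJ, heI, Set.insert_subset (hJE heJ) hIE, ?_⟩
      rw [linearIndepOn_insert heI]
      refine ⟨hI, ?_⟩
      simpa using hspan
  have h2 : Submodule.span (ZMod 2) J ≤ Submodule.span (ZMod 2) I :=
    Submodule.span_le.mpr hJspan
  have h3 : finrank (ZMod 2) (Submodule.span (ZMod 2) J) ≤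
      finrank (ZMod 2) (Submodule.span (ZMod 2) I) := Submodule.finrank_mono h2
  have hI' : finrank (ZMod 2) (Submodule.span (ZMod 2) I) = I.ncard := by
    have := finrank_span_set_eq_card (R := ZMod 2) (s := I) hI
    rw [this, Set.ncard_eq_toFinset_card']
  have hJ' : finrank (ZMod 2) (Submodule.span (ZMod 2) J) = J.ncard := by
    have := finrank_span_set_eq_card (R := ZMod 2) (s := J) hJ
    rw [this, Set.ncard_eq_toFinset_card']
  omega

/-- The binary matroid on the set `ground n` of vectors of `F_2^n` (linear independence). -/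
noncomputable def pgMinus (n : ℕ) : Matroid (Fin n → ZMod 2) :=
  (IndepMatroid.ofFinite (E := ground n) (Set.toFinite _)
    (fun I => I ⊆ ground n ∧ LinearIndepOn (ZMod 2) id I)
    ⟨Set.empty_subset _, linearIndepOn_empty _ _⟩
    (fun _ _ hJ hIJ => ⟨hIJ.trans hJ.1, hJ.2.mono hIJ⟩)
    (fun I J hI hJ hcard => aug_aux I J hI.1 hI.2 hJ.1 hJ.2 hcard)
    (fun _ h => h.1)).matroid

@[simp] lemma pgMinus_ground (n : ℕ) : (pgMinus n).E = ground n := rfl

lemma pgMinus_indep (n : ℕ) (I : Set (Fin n → ZMod 2)) :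
    (pgMinus n).Indep I ↔ I ⊆ ground n ∧ LinearIndepOn (ZMod 2) id I := Iff.rfl

/-- a set of vectors spans iff no nonzero vector is orthogonal to all of it. -/
lemma span_eq_top_iff {n : ℕ} (A : Set (Fin n → ZMod 2)) :
    Submodule.span (ZMod 2) A = ⊤ ↔ ∀ v : Fin n → ZMod 2, v ≠ 0 → ∃ u ∈ A, u ⬝ᵥ v ≠ 0 := by
  constructor
  · intro h v hv
    by_contra hcon
    push Not at hcon
    apply hv
    have h1 : ∀ u ∈ Submodule.span (ZMod 2) A, u ⬝ᵥ v = 0 := by
      intro u hu
      induction hu using Submodule.span_induction with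
      | mem x hx => exact hcon x hx
      | zero => simp
      | add x y _ _ hx hy => rw [add_dotProduct, hx, hy, add_zero]
      | smul a x _ hx => rw [smul_dotProduct, hx, smul_zero]
    rw [h] at h1
    funext i
    have := h1 (Pi.single i 1) Submodule.mem_top
    simpa using this
  · intro h
    by_contra hne
    obtain ⟨f, hf0, hf⟩ := Submodule.exists_le_ker_of_lt_top _ (lt_top_iff_ne_top.mpr hne)
    let v : Fin n → ZMod 2 := fun i => f (Pi.single i 1)
    have hfv : ∀ u, f u = u ⬝ᵥ v := by
      intro u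
      have : u = ∑ i, u i • (Pi.single i (1 : ZMod 2) : Fin n → ZMod 2) := by
        funext j
        simp [Finset.sum_apply, Pi.single_apply]
      conv_lhs => rw [this]
      simp [map_sum, dotProduct, v]
    have hv : v ≠ 0 := by
      intro hv0
      apply hf0
      ext1 i
      ext
      have := hfv (Pi.single i 1)
      simp [hv0] at this
      simpa using this
    obtain ⟨u, hu, huv⟩ := h v hv
    apply huv
    rw [← hfv]
    have := hf (Submodule.subset_span hu)
    simpa using this

lemma ground_span {n : ℕ} (hn : 2 ≤ n) : Submodule.span (ZMod 2) (ground n) = ⊤ := by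
  rw [span_eq_top_iff]
  intro v hv
  obtain ⟨i, hi⟩ := Function.ne_iff.mp hv
  refine ⟨Pi.single i 1, ⟨?_, ?_⟩, by simpa using hi⟩
  · intro h
    have := congrFun h i
    simp at this
  · intro h
    have : Nontrivial (Fin n) := Fin.nontrivial_iff_two_le.mpr hn
    obtain ⟨j, hj⟩ := exists_ne i
    have := congrFun h j
    simp [hj] at this

/-- The vectors of the ground set not orthogonal to `v`. -/
def D (n : ℕ) (v : Fin n → ZMod 2) : Set (Fin n → ZMod 2) := {u | u ∈ ground n ∧ u ⬝ᵥ v ≠ 0}

lemma dual_indep_iff {n : ℕ} (hn : 2 ≤ n) (I : Set (Fin n → ZMod 2)) :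
    (pgMinus n)✶.Indep I ↔ I ⊆ ground n ∧ ∀ v : Fin n → ZMod 2, v ≠ 0 → ¬ D n v ⊆ I := by
  rw [dual_indep_iff_exists']
  constructor
  · rintro ⟨hIE, B, hB, hdisj⟩
    refine ⟨hIE, ?_⟩
    intro v hv hsub
    have hBi : LinearIndepOn (ZMod 2) id B := (pgMinus_indep n B).mp hB.indep |>.2
    have hBE : B ⊆ ground n := hB.subset_ground
    have hspan : Submodule.span (ZMod 2) B = ⊤ := by
      rw [eq_top_iff, ← ground_span hn, Submodule.span_le]
      intro e he
      by_cases heB : e ∈ B
      · exact Submodule.subset_span heB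
      · by_contra hspan
        have h1 : (pgMinus n).Indep (insert e B) := by
          rw [pgMinus_indep]
          refine ⟨Set.insert_subset he hBE, ?_⟩
          rw [linearIndepOn_insert heB]
          exact ⟨hBi, by simpa using hspan⟩
        have h2 := hB.eq_of_subset_indep h1 (Set.subset_insert e B)
        exact heB (h2 ▸ Set.mem_insert e B)
    obtain ⟨u, huB, huv⟩ := (span_eq_top_iff B).mp hspan v hv
    have huI : u ∈ I := hsub ⟨hBE huB, huv⟩
    exact Set.disjoint_left.mp hdisj huI huB
  · rintro ⟨hIE, h⟩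
    refine ⟨hIE, ?_⟩
    have hspan : Submodule.span (ZMod 2) (ground n \ I) = ⊤ := by
      rw [span_eq_top_iff]
      intro v hv
      by_contra hcon
      push Not at hcon
      apply h v hv
      rintro u ⟨huE, huv⟩
      by_contra huI
      exact huv (hcon u ⟨huE, huI⟩)
    obtain ⟨B, hBsub, -, hBspan, hBi⟩ := exists_linearIndepOn_id_extension
      (linearIndepOn_empty (ZMod 2) (id : (Fin n → ZMod 2) → _)) (Set.empty_subset (ground n \ I))
    have hBtop : Submodule.span (ZMod 2) B = ⊤ := by
      rw [eq_top_iff, ← hspan, Submodule.span_le]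
      exact hBspan
    refine ⟨B, ?_, ?_⟩
    · have hBind : (pgMinus n).Indep B := by
        rw [pgMinus_indep]
        exact ⟨hBsub.trans Set.sdiff_subset, hBi⟩
      rw [isBase_iff_maximal_indep]
      refine ⟨hBind, ?_⟩
      intro J hJ hBJ e heJ
      by_contra heB
      have h1 : (pgMinus n).Indep (insert e B) := hJ.subset (Set.insert_subset heJ hBJ)
      rw [pgMinus_indep, linearIndepOn_insert heB] at h1
      apply h1.2.2
      simp [hBtop]
    · rw [Set.disjoint_left]
      intro u huI huB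
      exact (hBsub huB).2 huI

lemma zmod2_ne_zero {x : ZMod 2} (h : x ≠ 0) : x = 1 := by
  revert h
  revert x
  decide

lemma zmod2_ne_one {x : ZMod 2} (h : x ≠ 1) : x = 0 := by
  revert h
  revert x
  decide

lemma exists_sep {n : ℕ} (hn : 3 ≤ n) (v w : Fin n → ZMod 2) (hvw : w ≠ v) (hw : w ≠ 0) :
    ∃ u ∈ ground n, u ⬝ᵥ w ≠ 0 ∧ u ⬝ᵥ v = 0 := by
  by_cases h1 : ∃ i, w i ≠ 0 ∧ v i = 0
  · obtain ⟨i, hwi, hvi⟩ := h1
    refine ⟨Pi.single i 1, ⟨?_, ?_⟩, by simpa using hwi, by simpa using hvi⟩
    · intro h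
      have := congrFun h i
      simp at this
    · intro h
      have : Nontrivial (Fin n) := Fin.nontrivial_iff_two_le.mpr (by omega)
      obtain ⟨j, hj⟩ := exists_ne i
      have := congrFun h j
      simp [hj] at this
  · push Not at h1
    obtain ⟨i, hi⟩ := Function.ne_iff.mp hw
    obtain ⟨j, hj⟩ := Function.ne_iff.mp hvw
    have hi' : w i ≠ 0 := by simpa using hi
    have hvi := h1 i hi'
    have hwj : w j = 0 := by
      by_contra hwj
      have := h1 j hwj
      rw [zmod2_ne_zero hwj, zmod2_ne_zero this] at hj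
      exact hj rfl
    have hvj : v j ≠ 0 := by rwa [hwj, ne_comm] at hj
    have hij : i ≠ j := by
      rintro rfl
      exact hi' hwj
    refine ⟨Pi.single i 1 + Pi.single j 1, ⟨?_, ?_⟩, ?_, ?_⟩
    · intro h
      have := congrFun h i
      simp [hij] at this
    · intro h
      obtain ⟨k, -, hk⟩ := Finset.exists_mem_notMem_of_card_lt_card
        (s := ({i, j} : Finset (Fin n))) (t := Finset.univ) (by
          rw [Finset.card_univ, Fintype.card_fin]
          exact lt_of_le_of_lt Finset.card_le_two (by omega))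
      have hki : k ≠ i := by rintro rfl; simp at hk
      have hkj : k ≠ j := by rintro rfl; simp at hk
      have := congrFun h k
      simp [hki, hkj] at this
    · rw [add_dotProduct]
      simpa [hwj] using hi'
    · rw [add_dotProduct]
      simp only [single_dotProduct, one_mul]
      rw [zmod2_ne_zero hvi, zmod2_ne_zero hvj]
      decide

lemma D_subset_imp {n : ℕ} (hn : 3 ≤ n) {v w : Fin n → ZMod 2} (hw : w ≠ 0)
    (h : D n w ⊆ D n v) : w = v := by
  by_contra hvw
  obtain ⟨u, huE, huw, huv⟩ := exists_sep hn v w hvw hw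
  exact (h ⟨huE, huw⟩).2 huv

lemma D_subset_ground (n : ℕ) (v : Fin n → ZMod 2) : D n v ⊆ ground n := fun _ h => h.1

lemma D_zero (n : ℕ) : D n 0 = ∅ := by
  ext u
  simp [D]

lemma D_injective {n : ℕ} (hn : 3 ≤ n) : Function.Injective (D n) := by
  intro v w h
  by_cases hv : v = 0
  · by_cases hw : w = 0
    · rw [hv, hw]
    · exact (D_subset_imp hn hw h.ge).symm
  · exact D_subset_imp hn hv h.le

lemma isCircuit_dual_iff {n : ℕ} (hn : 3 ≤ n) (C : Set (Fin n → ZMod 2)) :
    (pgMinus n)✶.IsCircuit C ↔ ∃ v : Fin n → ZMod 2, v ≠ 0 ∧ C = D n v := by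
  have hdep : ∀ v : Fin n → ZMod 2, v ≠ 0 → (pgMinus n)✶.Dep (D n v) := by
    intro v hv
    refine ⟨?_, D_subset_ground n v⟩
    rw [dual_indep_iff (by omega)]
    rintro ⟨-, h⟩
    exact h v hv Subset.rfl
  constructor
  · intro hC
    have hCE : C ⊆ ground n := hC.subset_ground
    have h1 := hC.not_indep
    rw [dual_indep_iff (by omega)] at h1
    push Not at h1
    obtain ⟨v, hv, hsub⟩ := h1 hCE
    exact ⟨v, hv, (hC.eq_of_dep_subset (hdep v hv) hsub).symm⟩
  · rintro ⟨v, hv, rfl⟩
    rw [isCircuit_iff_forall_ssubset]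
    refine ⟨hdep v hv, ?_⟩
    intro X hX
    rw [dual_indep_iff (by omega)]
    refine ⟨hX.subset.trans (D_subset_ground n v), ?_⟩
    intro w hw hwX
    have := D_subset_imp hn hw (hwX.trans hX.subset)
    subst this
    exact hX.not_subset hwX

end Pool.Agent.Lib.MP_1f7bca_co
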