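import Pool.Agent.Lib.MP_1f7bca_co.Props

set_option autoImplicit false

namespace Pool.Agent.Lib.MP_1f7bca_co

open Set Matroid Module

/-- every line has a third point -/
def T {α : Type} (P : Matroid α) : Prop :=
  ∀ a ∈ P.E, ∀ b ∈ P.E, a ≠ b → P.Indep {a, b} →
    ∃ c ∈ P.E, c ∈ P.closure {a, b} ∧ c ∉ P.closure {a} ∧ c ∉ P.closure {b}

lemma T_contract {α : Type} (P : Matroid α) (h : T P) (e : α) (he : e ∈ P.E) :
    T (P ／ {e}) := by
  intro a ha b hb hab hind
  simp only [contract_ground, Set.mem_sdiff, Set.mem_singleton_iff] at ha hb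
  by_cases hloop : P.IsLoop e
  · rw [contract_eq_delete_of_subset_loops (Set.singleton_subset_iff.mpr hloop)] at hind ⊢
    rw [delete_indep_iff] at hind
    obtain ⟨c, hcE, hc1, hc2, hc3⟩ := h a ha.1 b hb.1 hab hind.1
    have hce : c ≠ e := by
      rintro rfl
      exact hc2 (hloop.mem_closure _)
    have h1 : ({a, b} : Set α) \ {e} = {a, b} := by
      rw [sdiff_eq_left, Set.disjoint_singleton_right]
      simp [Ne.symm ha.2, Ne.symm hb.2]
    have h2 : ({a} : Set α) \ {e} = {a} := by
      rw [sdiff_eq_left, Set.disjoint_singleton_right]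
      simp [Ne.symm ha.2]
    have h3 : ({b} : Set α) \ {e} = {b} := by
      rw [sdiff_eq_left, Set.disjoint_singleton_right]
      simp [Ne.symm hb.2]
    refine ⟨c, ⟨hcE, hce⟩, ?_, ?_, ?_⟩
    · rw [delete_closure_eq, h1]; exact ⟨hc1, hce⟩
    · rw [delete_closure_eq, h2]; exact fun h => hc2 h.1
    · rw [delete_closure_eq, h3]; exact fun h => hc3 h.1
  · have hnl : P.IsNonloop e := isNonloop_of_not_isLoop he hloop
    rw [hnl.contractElem_indep_iff] at hind
    have hind' := hind.2
    have hab' : P.Indep {a, b} := hind'.subset (Set.subset_insert _ _)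
    have hecl : e ∉ P.closure {a, b} := by
      intro hcl
      exact (hab'.mem_closure_iff_of_notMem hind.1).mp hcl |>.not_indep hind'
    obtain ⟨c, hcE, hc1, hc2, hc3⟩ := h a ha.1 b hb.1 hab hab'
    have hce : c ≠ e := by rintro rfl; exact hecl hc1
    refine ⟨c, ⟨hcE, hce⟩, ?_, ?_, ?_⟩
    · rw [contract_closure_eq]
      exact ⟨P.closure_subset_closure Set.subset_union_left hc1, hce⟩
    · rw [contract_closure_eq]
      rintro ⟨h1, -⟩
      rw [Set.union_singleton] at h1
      have h2 : e ∈ P.closure (insert c {a}) := (P.closure_exchange ⟨h1, hc2⟩).1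
      apply hecl
      have h3 : P.closure (insert c {a}) ⊆ P.closure {a, b} := by
        apply P.closure_subset_closure_of_subset_closure
        apply Set.insert_subset hc1
        rw [Set.singleton_subset_iff]
        exact P.mem_closure_of_mem' (by simp) ha.1
      exact h3 h2
    · rw [contract_closure_eq]
      rintro ⟨h1, -⟩
      rw [Set.union_singleton] at h1
      have h2 : e ∈ P.closure (insert c {b}) := (P.closure_exchange ⟨h1, hc3⟩).1
      apply hecl
      have h3 : P.closure (insert c {b}) ⊆ P.closure {a, b} := by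
        apply P.closure_subset_closure_of_subset_closure
        apply Set.insert_subset hc1
        rw [Set.singleton_subset_iff]
        exact P.mem_closure_of_mem' (by simp) hb.1
      exact h3 h2

lemma T_delete {α : Type} (P : Matroid α) (h : T P) (e : α)
    (he : P.IsLoop e ∨ ∃ f, e ≠ f ∧ P.IsCircuit {e, f}) : T (P ＼ {e}) := by
  intro a ha b hb hab hind
  simp only [delete_ground, Set.mem_sdiff, Set.mem_singleton_iff] at ha hb
  rw [delete_indep_iff] at hind
  have h1 : ({a, b} : Set α) \ {e} = {a, b} := by
    rw [sdiff_eq_left, Set.disjoint_singleton_right]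
    simp [Ne.symm ha.2, Ne.symm hb.2]
  have h2 : ({a} : Set α) \ {e} = {a} := by
    rw [sdiff_eq_left, Set.disjoint_singleton_right]
    simp [Ne.symm ha.2]
  have h3 : ({b} : Set α) \ {e} = {b} := by
    rw [sdiff_eq_left, Set.disjoint_singleton_right]
    simp [Ne.symm hb.2]
  have key : ∃ c ∈ P.E, c ≠ e ∧ c ∈ P.closure {a, b} ∧ c ∉ P.closure {a} ∧ c ∉ P.closure {b} := by
    obtain ⟨c, hcE, hc1, hc2, hc3⟩ := h a ha.1 b hb.1 hab hind.1
    by_cases hce : c = e
    · subst hce
      rcases he with hloop | ⟨f, hcf, hcirc⟩
      · exact absurd (hloop.mem_closure _) hc2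
      · have hfE : f ∈ P.E := hcirc.subset_ground (by simp)
        have hfc : f ∈ P.closure {c} := by
          have := hcirc.mem_closure_sdiff_singleton_of_mem (e := f) (by simp)
          refine P.closure_subset_closure ?_ this
          intro x hx
          rcases hx with ⟨rfl | hx, hx2⟩
          · rfl
          · exact absurd hx hx2
        have hcf' : c ∈ P.closure {f} := by
          have := hcirc.mem_closure_sdiff_singleton_of_mem (e := c) (by simp)
          refine P.closure_subset_closure ?_ this
          intro x hx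
          rcases hx with ⟨rfl | hx, hx2⟩
          · exact absurd rfl hx2
          · exact hx
        refine ⟨f, hfE, hcf.symm, ?_, ?_, ?_⟩
        · exact P.closure_subset_closure_of_subset_closure (Set.singleton_subset_iff.mpr hc1) hfc
        · intro hf
          exact hc2 (P.closure_subset_closure_of_subset_closure
            (Set.singleton_subset_iff.mpr hf) hcf')
        · intro hf
          exact hc3 (P.closure_subset_closure_of_subset_closure
            (Set.singleton_subset_iff.mpr hf) hcf')
    · exact ⟨c, hcE, hce, hc1, hc2, hc3⟩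
  obtain ⟨c, hcE, hce, hc1, hc2, hc3⟩ := key
  refine ⟨c, ⟨hcE, hce⟩, ?_, ?_, ?_⟩
  · rw [delete_closure_eq, h1]; exact ⟨hc1, hce⟩
  · rw [delete_closure_eq, h2]; exact fun h => hc2 h.1
  · rw [delete_closure_eq, h3]; exact fun h => hc3 h.1

lemma mem_closure_pgMinus {n : ℕ} {X : Set (Fin n → ZMod 2)} (hX : X ⊆ ground n)
    (x : Fin n → ZMod 2) :
    x ∈ (pgMinus n).closure X ↔ x ∈ ground n ∧ x ∈ Submodule.span (ZMod 2) X := by
  obtain ⟨I, hI⟩ := (pgMinus n).exists_isBasis X hX
  rw [← hI.closure_eq_closure]
  have hIi : LinearIndepOn (ZMod 2) id I := ((pgMinus_indep n I).mp hI.indep).2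
  have hIE : I ⊆ ground n := hI.indep.subset_ground
  have hspan : Submodule.span (ZMod 2) I = Submodule.span (ZMod 2) X := by
    apply le_antisymm (Submodule.span_mono hI.subset)
    rw [Submodule.span_le]
    intro y hy
    by_cases hyI : y ∈ I
    · exact Submodule.subset_span hyI
    · by_contra hspan
      have h1 : (pgMinus n).Indep (insert y I) := by
        rw [pgMinus_indep]
        refine ⟨Set.insert_subset (hX hy) hIE, ?_⟩
        rw [linearIndepOn_insert hyI]
        exact ⟨hIi, by simpa using hspan⟩
      have h2 := hI.eq_of_subset_indep h1 (Set.subset_insert _ _)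
        (Set.insert_subset hy hI.subset)
      exact hyI (h2 ▸ Set.mem_insert y I)
  rw [← hspan]
  by_cases hxI : x ∈ I
  · constructor
    · intro _
      exact ⟨hIE hxI, Submodule.subset_span hxI⟩
    · intro _
      exact (pgMinus n).mem_closure_of_mem' hxI (hIE hxI)
  · rw [hI.indep.mem_closure_iff_of_notMem hxI]
    constructor
    · intro hdep
      have hxE : x ∈ ground n := hdep.subset_ground (Set.mem_insert _ _)
      refine ⟨hxE, ?_⟩
      by_contra hspan
      apply hdep.not_indep
      rw [pgMinus_indep]
      refine ⟨Set.insert_subset hxE hIE, ?_⟩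
      rw [linearIndepOn_insert hxI]
      exact ⟨hIi, by simpa using hspan⟩
    · rintro ⟨hxE, hspan'⟩
      refine ⟨?_, Set.insert_subset hxE hIE⟩
      intro hi
      rw [pgMinus_indep, linearIndepOn_insert hxI] at hi
      apply hi.2.2
      simpa using hspan'

lemma T_contract_pgMinus {n : ℕ} (e : Fin n → ZMod 2) (he : e ∈ ground n) :
    T (pgMinus n ／ {e}) := by
  intro a ha b hb hab hind
  simp only [contract_ground, Set.mem_sdiff, Set.mem_singleton_iff, pgMinus_ground] at ha hb
  have hnl : (pgMinus n).IsNonloop e := by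
    rw [← indep_singleton]
    simpa using indep_pair he he
  rw [hnl.contractElem_indep_iff] at hind
  obtain ⟨hen, hind'⟩ := hind
  have hab' : (pgMinus n).Indep {a, b} := hind'.subset (Set.subset_insert _ _)
  have hli := (pgMinus_indep n _).mp hind'
  have hself : ∀ x : Fin n → ZMod 2, x + x = 0 := by
    intro x
    funext i
    exact CharTwo.add_self_eq_zero (x i)
  have hbn : b ∉ Submodule.span (ZMod 2) {a, e} := by
    have h1 : (pgMinus n).Indep (insert b {a, e}) := by
      have : (insert b {a, e} : Set (Fin n → ZMod 2)) = insert e {a, b} := by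
        ext x; simp only [Set.mem_insert_iff, Set.mem_singleton_iff]; tauto
      rwa [this]
    rw [pgMinus_indep] at h1
    have hb' : b ∉ ({a, e} : Set (Fin n → ZMod 2)) := by
      simp [Ne.symm hab, hb.2]
    have h2 := (linearIndepOn_insert hb').mp h1.2
    simpa using h2.2
  have han : a ∉ Submodule.span (ZMod 2) {b, e} := by
    have h1 : (pgMinus n).Indep (insert a {b, e}) := by
      have : (insert a {b, e} : Set (Fin n → ZMod 2)) = insert e {a, b} := by
        ext x; simp only [Set.mem_insert_iff, Set.mem_singleton_iff]; tauto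
      rwa [this]
    rw [pgMinus_indep] at h1
    have ha' : a ∉ ({b, e} : Set (Fin n → ZMod 2)) := by
      simp [hab, ha.2]
    have h2 := (linearIndepOn_insert ha').mp h1.2
    simpa using h2.2
  have hin : ∀ x y : Fin n → ZMod 2, x ∈ Submodule.span (ZMod 2) ({x, y} : Set _) :=
    fun x y => Submodule.subset_span (by simp)
  have hin' : ∀ x y : Fin n → ZMod 2, y ∈ Submodule.span (ZMod 2) ({x, y} : Set _) :=
    fun x y => Submodule.subset_span (by simp)
  -- the third point
  obtain ⟨c, hc, hcE⟩ : ∃ c : Fin n → ZMod 2, (c = a + b ∨ c = a + b + e) ∧ c ∈ ground n := by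
    by_cases h1 : a + b = 1
    · refine ⟨a + b + e, Or.inr rfl, ?_, ?_⟩
      · intro h0
        apply he.2
        rw [h1] at h0
        calc e = 1 + (1 + e) := by rw [← add_assoc, hself, zero_add]
          _ = 1 := by rw [h0, add_zero]
      · intro h0
        apply he.1
        rw [h1] at h0
        calc e = 1 + (1 + e) := by rw [← add_assoc, hself, zero_add]
          _ = 0 := by rw [h0, hself]
    · refine ⟨a + b, Or.inl rfl, ?_, h1⟩
      intro h0
      apply hab
      calc a = a + b + b := by rw [add_assoc, hself, add_zero]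
        _ = b := by rw [h0, zero_add]
  have hgr : ({e} : Set (Fin n → ZMod 2)) ⊆ ground n := Set.singleton_subset_iff.mpr he
  have hga : ({a} : Set (Fin n → ZMod 2)) ⊆ ground n := Set.singleton_subset_iff.mpr ha.1
  have hgb : ({b} : Set (Fin n → ZMod 2)) ⊆ ground n := Set.singleton_subset_iff.mpr hb.1
  have hgab : ({a, b} : Set (Fin n → ZMod 2)) ⊆ ground n := Set.insert_subset ha.1 hgb
  have hca : c ∉ Submodule.span (ZMod 2) ({a} ∪ {e} : Set (Fin n → ZMod 2)) := by
    intro h
    apply hbn
    have h' : c ∈ Submodule.span (ZMod 2) ({a, e} : Set (Fin n → ZMod 2)) := h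
    rcases hc with rfl | rfl
    · have := Submodule.add_mem _ h' (hin a e)
      have h2 : a + b + a = b := by rw [add_comm a b, add_assoc, hself, add_zero]
      rwa [h2] at this
    · have := Submodule.add_mem _ (Submodule.add_mem _ h' (hin' a e)) (hin a e)
      have h2 : a + b + e + e + a = b := by
        rw [add_assoc (a + b) e e, hself, add_zero, add_comm a b, add_assoc, hself, add_zero]
      rwa [h2] at this
  have hcb : c ∉ Submodule.span (ZMod 2) ({b} ∪ {e} : Set (Fin n → ZMod 2)) := by
    intro h
    apply han
    have h' : c ∈ Submodule.span (ZMod 2) ({b, e} : Set (Fin n → ZMod 2)) := h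
    rcases hc with rfl | rfl
    · have := Submodule.add_mem _ h' (hin b e)
      have h2 : a + b + b = a := by rw [add_assoc, hself, add_zero]
      rwa [h2] at this
    · have := Submodule.add_mem _ (Submodule.add_mem _ h' (hin' b e)) (hin b e)
      have h2 : a + b + e + e + b = a := by
        rw [add_assoc (a + b) e e, hself, add_zero, add_assoc, hself, add_zero]
      rwa [h2] at this
  have hce : c ≠ e := by
    rintro rfl
    apply hca
    exact Submodule.subset_span (by simp)
  refine ⟨c, ⟨hcE, hce⟩, ?_, ?_, ?_⟩
  · rw [contract_closure_eq]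
    refine ⟨?_, hce⟩
    rw [mem_closure_pgMinus (Set.union_subset hgab hgr)]
    refine ⟨hcE, ?_⟩
    have ha1 : a ∈ Submodule.span (ZMod 2) ({a, b} ∪ {e} : Set (Fin n → ZMod 2)) :=
      Submodule.subset_span (by simp)
    have hb1 : b ∈ Submodule.span (ZMod 2) ({a, b} ∪ {e} : Set (Fin n → ZMod 2)) :=
      Submodule.subset_span (by simp)
    have he1 : e ∈ Submodule.span (ZMod 2) ({a, b} ∪ {e} : Set (Fin n → ZMod 2)) :=
      Submodule.subset_span (by simp)
    rcases hc with rfl | rfl
    · exact Submodule.add_mem _ ha1 hb1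
    · exact Submodule.add_mem _ (Submodule.add_mem _ ha1 hb1) he1
  · rw [contract_closure_eq]
    rintro ⟨h1, -⟩
    rw [mem_closure_pgMinus (Set.union_subset hga hgr)] at h1
    exact hca h1.2
  · rw [contract_closure_eq]
    rintro ⟨h1, -⟩
    rw [mem_closure_pgMinus (Set.union_subset hgb hgr)] at h1
    exact hcb h1.2

lemma restrictedMinor_cases {n : ℕ} (N : Matroid (Fin n → ZMod 2))
    (h : RestrictedMinor (pgMinus n)✶ N) : N = (pgMinus n)✶ ∨ T N✶ := by
  induction h with
  | refl => left; rfl
  | delete N h e he ih =>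
    right
    rw [dual_delete]
    rcases ih with rfl | ih
    · rw [dual_dual]
      exact T_contract_pgMinus e he
    · exact T_contract _ ih e he
  | series N h e f hef hc ih =>
    right
    rw [dual_contract]
    rcases ih with rfl | ih
    · exfalso
      rw [dual_dual] at hc
      have h3 := isSimple_pgMinus n _ hc
      rw [Set.encard_pair hef] at h3
      exact absurd h3 (by decide)
    · exact T_delete _ ih e (Or.inr ⟨f, hef, hc⟩)
  | coloop N h e he ih =>
    right
    rw [dual_contract]
    rcases ih with rfl | ih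
    · exfalso
      have h1 := he.isCocircuit
      unfold IsCocircuit at h1
      rw [dual_dual] at h1
      have h3 := isSimple_pgMinus n _ h1
      rw [Set.encard_singleton] at h3
      exact absurd h3 (by decide)
    · exact T_delete _ ih e (Or.inl he)

end Pool.Agent.Lib.MP_1f7bca_co
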