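import Pool.Agent.Lib.MP_1f7bca_co.Defs

set_option autoImplicit false

namespace Pool.Agent.Lib.MP_1f7bca_co

open MvPolynomial

variable {σ : Type*} {K : Type*} [Field K]

lemma minHomGen_singleton (b : MvPolynomial σ K) (d : ℕ) (hb : b.IsHomogeneous d) (hb0 : b ≠ 0) :
    IsMinHomGen (Ideal.span {b}) {b} := by
  refine ⟨?_, rfl, ?_⟩
  · intro g hg
    rw [Set.mem_singleton_iff] at hg
    exact ⟨d, hg ▸ hb⟩
  · intro G' hG' hspan
    have h1 : G' = ∅ := by
      rw [Set.ssubset_singleton_iff] at hG'
      exact hG'
    rw [h1, Ideal.span_empty] at hspan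
    apply hb0
    have : b ∈ (⊥ : Ideal (MvPolynomial σ K)) := hspan ▸ Ideal.subset_span rfl
    simpa using this

lemma minHomGen_greatest (b : MvPolynomial σ K) (d : ℕ) (hb : b.IsHomogeneous d) (hb0 : b ≠ 0)
    (G : Set (MvPolynomial σ K)) (hG : IsMinHomGen (Ideal.span {b}) G) :
    IsGreatest (totalDegree '' G) d := by
  obtain ⟨hhom, hspan, hmin⟩ := hG
  have hbdeg : b.totalDegree = d := hb.totalDegree hb0
  have hmul : ∀ g ∈ G, ∃ h, g = h * b := by
    intro g hg
    have : g ∈ Ideal.span {b} := hspan ▸ Ideal.subset_span hg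
    obtain ⟨h, hh⟩ := Ideal.mem_span_singleton'.mp this
    exact ⟨h, hh.symm⟩
  have hex : ∃ g ∈ G, g ≠ 0 ∧ g.totalDegree = d := by
    by_contra hcon
    push Not at hcon
    have key : ∀ p ∈ Ideal.span G, ∀ m ∈ p.support, d < m.degree := by
      intro p hp
      induction hp using Submodule.span_induction with
      | mem g hg =>
        intro m hm
        have hg0 : g ≠ 0 := by
          rintro rfl
          simp at hm
        obtain ⟨k, hk⟩ := hhom g hg
        obtain ⟨h, hh⟩ := hmul g hg
        have hh0 : h ≠ 0 := by
          rintro rfl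
          rw [zero_mul] at hh
          exact hg0 hh
        have h1 : g.totalDegree = h.totalDegree + b.totalDegree := by
          rw [hh, totalDegree_mul_of_isDomain hh0 hb0]
        have h2 : g.totalDegree = k := hk.totalDegree hg0
        have h3 := hcon g hg hg0
        have h4 : m.degree = k := by
          have := hk (mem_support_iff.mp hm)
          rw [Finsupp.degree_eq_weight_one]; exact this
        omega
      | zero => simp
      | add x y _ _ hx hy =>
        intro m hm
        classical
        rcases Finset.mem_union.mp (support_add hm) with h | h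
        · exact hx m h
        · exact hy m h
      | smul a x _ hx =>
        intro m hm
        classical
        rw [smul_eq_mul] at hm
        obtain ⟨m1, hm1, m2, hm2, rfl⟩ := Finset.mem_add.mp (support_mul a x hm)
        have := hx m2 hm2
        rw [map_add]
        omega
    have hbm : b ∈ Ideal.span G := hspan ▸ Ideal.subset_span rfl
    have hne : b.support.Nonempty := by
      rw [Finset.nonempty_iff_ne_empty]
      intro h
      exact hb0 (support_eq_empty.mp h)
    obtain ⟨m, hm⟩ := hne
    have h1 := key b hbm m hm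
    have h2 := hb (mem_support_iff.mp hm)
    rw [Finsupp.degree_eq_weight_one] at h1
    exact absurd h2 (ne_of_gt h1)
  obtain ⟨g, hg, hg0, hgd⟩ := hex
  obtain ⟨h, hh⟩ := hmul g hg
  have hh0 : h ≠ 0 := by
    rintro rfl
    rw [zero_mul] at hh
    exact hg0 hh
  have h1 : g.totalDegree = h.totalDegree + b.totalDegree := by
    rw [hh, totalDegree_mul_of_isDomain hh0 hb0]
  have hdeg0 : h.totalDegree = 0 := by omega
  have hC := totalDegree_eq_zero_iff_eq_C.mp hdeg0
  set c := coeff 0 h with hc
  have hc0 : c ≠ 0 := by
    rintro h0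
    apply hh0
    rw [hC, h0, C_0]
  have hbg : b = C c⁻¹ * g := by
    rw [hh, hC, ← mul_assoc, ← C_mul, inv_mul_cancel₀ hc0, C_1, one_mul]
  have hspan_g : Ideal.span {g} = Ideal.span {b} := by
    apply le_antisymm
    · rw [Ideal.span_singleton_le_iff_mem]
      exact hspan ▸ Ideal.subset_span hg
    · rw [Ideal.span_singleton_le_iff_mem, hbg]
      exact Ideal.mul_mem_left _ _ (Ideal.subset_span rfl)
  have hGg : G = {g} := by
    by_contra hne
    apply hmin {g} _ hspan_g
    rw [Set.ssubset_iff_subset_ne]
    exact ⟨Set.singleton_subset_iff.mpr hg, fun h => hne h.symm⟩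
  rw [hGg, Set.image_singleton, hgd]
  exact isGreatest_singleton

end Pool.Agent.Lib.MP_1f7bca_co
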