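import Pool.Agent.Lib.MP_1f7bca_co.Mat

set_option autoImplicit false

namespace Pool.Agent.Lib.MP_1f7bca_co

open Set Matroid Module

lemma zmod2_cases (x : ZMod 2) : x = 0 ∨ x = 1 := by
  revert x
  decide

/-- symmetric difference -/
lemma D_add_of_disjoint {n : ℕ} (v w : Fin n → ZMod 2) (h : Disjoint (D n v) (D n w)) :
    D n (v + w) = D n v ∪ D n w := by
  ext u
  simp only [D, Set.mem_ofPred_eq, Set.mem_union, dotProduct_add]
  constructor
  · rintro ⟨hu, huv⟩
    by_cases h1 : u ⬝ᵥ v = 0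
    · right
      refine ⟨hu, ?_⟩
      intro h2
      rw [h1, h2] at huv
      exact huv (add_zero 0)
    · left
      exact ⟨hu, h1⟩
  · rintro (⟨hu, huv⟩ | ⟨hu, huw⟩)
    · refine ⟨hu, ?_⟩
      have h2 : u ⬝ᵥ w = 0 := by
        by_contra h2
        exact Set.disjoint_left.mp h ⟨hu, huv⟩ ⟨hu, h2⟩
      rwa [h2, add_zero]
    · refine ⟨hu, ?_⟩
      have h2 : u ⬝ᵥ v = 0 := by
        by_contra h2
        exact Set.disjoint_left.mp h ⟨hu, h2⟩ ⟨hu, huw⟩
      rwa [h2, zero_add]

lemma isCycle_iff {n : ℕ} (hn : 3 ≤ n) (X : Set (Fin n → ZMod 2)) :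
    IsCycle (pgMinus n)✶ X ↔ ∃ v : Fin n → ZMod 2, X = D n v := by
  constructor
  · rintro ⟨C, hC, hdisj, rfl⟩
    have hfin : C.Finite := Set.toFinite C
    induction C, hfin using Set.Finite.induction_on with
    | empty => exact ⟨0, by simp [D_zero]⟩
    | @insert A S hAS hS ih =>
      obtain ⟨w, hw⟩ := ih (fun B hB => hC B (Set.mem_insert_of_mem _ hB))
        (hdisj.subset (Set.subset_insert _ _))
      obtain ⟨v, hv, hA⟩ := (isCircuit_dual_iff hn A).mp (hC A (Set.mem_insert _ _))
      refine ⟨v + w, ?_⟩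
      rw [Set.sUnion_insert, hw, hA, D_add_of_disjoint]
      rw [← hw, ← hA, Set.disjoint_sUnion_right]
      intro B hB
      have := hdisj (Set.mem_insert A S) (Set.mem_insert_of_mem A hB)
        (by rintro rfl; exact hAS hB)
      exact this
  · rintro ⟨v, rfl⟩
    by_cases hv : v = 0
    · refine ⟨∅, by simp, by simp, ?_⟩
      simp [hv, D_zero]
    · refine ⟨{D n v}, ?_, by simp, by simp⟩
      intro C hC
      rw [Set.mem_singleton_iff] at hC
      exact (isCircuit_dual_iff hn C).mpr ⟨v, hv, hC⟩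

/-- the two halves have equal size -/
lemma card_dot {n : ℕ} (v : Fin n → ZMod 2) (hv : v ≠ 0) :
    (Finset.univ.filter (fun u : Fin n → ZMod 2 => u ⬝ᵥ v = 0)).card = 2 ^ (n - 1) ∧
    (Finset.univ.filter (fun u : Fin n → ZMod 2 => u ⬝ᵥ v ≠ 0)).card = 2 ^ (n - 1) := by
  obtain ⟨i, hi⟩ := Function.ne_iff.mp hv
  have hi' : v i = 1 := zmod2_ne_zero hi
  have hn : 0 < n := lt_of_le_of_lt (Nat.zero_le _) i.2
  have heq : (Finset.univ.filter (fun u : Fin n → ZMod 2 => u ⬝ᵥ v = 0)).card =
      (Finset.univ.filter (fun u : Fin n → ZMod 2 => u ⬝ᵥ v ≠ 0)).card := by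
    apply Finset.card_bij (fun u _ => u + Pi.single i 1)
    · intro u hu
      simp only [Finset.mem_filter, Finset.mem_univ, true_and] at hu ⊢
      rw [add_dotProduct, hu]
      simp [hi']
    · intro a _ b _ h
      exact add_right_cancel h
    · intro b hb
      simp only [Finset.mem_filter, Finset.mem_univ, true_and] at hb
      refine ⟨b + Pi.single i 1, ?_, ?_⟩
      · simp only [Finset.mem_filter, Finset.mem_univ, true_and]
        rw [add_dotProduct, zmod2_ne_zero hb]
        simp only [single_dotProduct, one_mul, hi']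
        decide
      · rw [add_assoc, ← Pi.single_add]
        have : (1 : ZMod 2) + 1 = 0 := by decide
        rw [this, Pi.single_zero, add_zero]
  have hsum := Finset.card_filter_add_card_filter_not (s := (Finset.univ : Finset (Fin n → ZMod 2)))
    (fun u : Fin n → ZMod 2 => u ⬝ᵥ v = 0)
  have hcard : (Finset.univ : Finset (Fin n → ZMod 2)).card = 2 ^ n := by
    rw [Finset.card_univ, Fintype.card_fun, ZMod.card, Fintype.card_fin]
  rw [hcard] at hsum
  have h2 : 2 ^ n = 2 * 2 ^ (n - 1) := by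
    conv_lhs => rw [show n = (n - 1) + 1 by omega]
    rw [pow_succ]; ring
  simp only [ne_eq] at heq hsum ⊢
  omega

lemma three_le_encard_D {n : ℕ} (hn : 3 ≤ n) (v : Fin n → ZMod 2) (hv : v ≠ 0) :
    3 ≤ (D n v).encard := by
  classical
  have h1 := (card_dot v hv).2
  have hD : D n v = ↑((Finset.univ.filter (fun u : Fin n → ZMod 2 => u ⬝ᵥ v ≠ 0)).erase 1) := by
    ext u
    simp only [D, ground, Set.mem_ofPred_eq, Finset.coe_erase, Finset.coe_filter, Finset.mem_univ,
      true_and, Set.mem_sdiff, Set.mem_singleton_iff]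
    constructor
    · rintro ⟨⟨_, h2⟩, h3⟩
      exact ⟨h3, h2⟩
    · rintro ⟨h3, h2⟩
      refine ⟨⟨?_, h2⟩, h3⟩
      rintro rfl
      exact h3 (zero_dotProduct _)
  rw [hD, Set.encard_coe_eq_coe_finsetCard]
  have h2 : 4 ≤ 2 ^ (n - 1) := by
    calc 4 = 2 ^ 2 := by norm_num
      _ ≤ 2 ^ (n - 1) := Nat.pow_le_pow_right (by norm_num) (by omega)
  have h3 := Finset.pred_card_le_card_erase
    (s := Finset.univ.filter (fun u : Fin n → ZMod 2 => u ⬝ᵥ v ≠ 0)) (a := 1)
  have h4 : 3 ≤ ((Finset.univ.filter (fun u : Fin n → ZMod 2 => u ⬝ᵥ v ≠ 0)).erase 1).card := by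
    omega
  exact_mod_cast h4

lemma isSimple_dual {n : ℕ} (hn : 3 ≤ n) : IsSimple (pgMinus n)✶ := by
  intro C hC
  obtain ⟨v, hv, rfl⟩ := (isCircuit_dual_iff hn C).mp hC
  exact three_le_encard_D hn v hv

lemma indep_pair {n : ℕ} {a b : Fin n → ZMod 2} (ha : a ∈ ground n) (hb : b ∈ ground n) :
    (pgMinus n).Indep {a, b} := by
  rw [pgMinus_indep]
  refine ⟨Set.insert_subset ha (Set.singleton_subset_iff.mpr hb), ?_⟩
  by_cases hab : a = b
  · subst hab
    simp only [Set.mem_singleton_iff, Set.insert_eq_of_mem]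
    exact (linearIndepOn_singleton_iff (ZMod 2)).mpr ha.1
  · rw [LinearIndepOn.pair_iff _ hab]
    intro c d hcd
    simp only [id] at hcd
    rcases zmod2_cases c with rfl | rfl <;> rcases zmod2_cases d with rfl | rfl
    · exact ⟨rfl, rfl⟩
    · simp at hcd
      exact absurd hcd hb.1
    · simp at hcd
      exact absurd hcd ha.1
    · exfalso
      simp only [one_smul] at hcd
      apply hab
      have : a = -b := eq_neg_of_add_eq_zero_left hcd
      rw [this]
      funext i
      simp only [Pi.neg_apply]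
      exact ZMod.neg_eq_self_mod_two _

lemma isSimple_pgMinus (n : ℕ) : IsSimple (pgMinus n) := by
  intro C hC
  by_contra hlt
  have hlt' : C.encard ≤ 2 := by
    have h3 : C.encard < 3 := not_le.mp hlt
    have : (3 : ℕ∞) = 2 + 1 := by norm_num
    rw [this] at h3
    exact Order.le_of_lt_add_one h3
  have hCE : C ⊆ ground n := hC.subset_ground
  obtain ⟨a, ha⟩ := hC.nonempty
  have h1 : (C \ {a}).encard ≤ 1 := by
    have := Set.encard_sdiff_singleton_add_one ha
    rw [← this] at hlt'
    have h2 : (2 : ℕ∞) = 1 + 1 := by norm_num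
    rw [h2] at hlt'
    exact (ENat.add_le_add_iff_right (by simp)).mp hlt'
  rw [Set.encard_le_one_iff_eq] at h1
  apply hC.not_indep
  rcases h1 with h1 | ⟨b, h1⟩
  · have : C ⊆ {a, a} := by
      intro x hx
      by_contra hxa
      have : x ∈ C \ {a} := ⟨hx, by simpa using hxa⟩
      rw [h1] at this
      exact this
    exact (indep_pair (hCE ha) (hCE ha)).subset this
  · have hb : b ∈ C := by
      have : b ∈ C \ {a} := by rw [h1]; rfl
      exact this.1
    have : C ⊆ {a, b} := by
      intro x hx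
      by_cases hxa : x = a
      · left; exact hxa
      · right
        have : x ∈ C \ {a} := ⟨hx, hxa⟩
        rw [h1] at this
        exact this
    exact (indep_pair (hCE ha) (hCE hb)).subset this

lemma isCosimple_dual (n : ℕ) : IsCosimple (pgMinus n)✶ := by
  unfold IsCosimple
  rw [dual_dual]
  exact isSimple_pgMinus n

lemma isConnected_dual {n : ℕ} (hn : 3 ≤ n) : IsConnected (pgMinus n)✶ := by
  constructor
  · have h0 : 0 < n := by omega
    refine ⟨Pi.single ⟨0, h0⟩ 1, ?_⟩
    simp only [dual_ground, pgMinus_ground]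
    constructor
    · intro h
      have := congrFun h ⟨0, h0⟩
      simp at this
    · intro h
      have := congrFun h ⟨1, by omega⟩
      simp at this
  · intro a ha b hb _
    simp only [dual_ground, pgMinus_ground] at ha hb
    have hex : ∃ v : Fin n → ZMod 2, a ⬝ᵥ v ≠ 0 ∧ b ⬝ᵥ v ≠ 0 := by
      by_cases h1 : ∃ i, a i ≠ 0 ∧ b i ≠ 0
      · obtain ⟨i, hi⟩ := h1
        exact ⟨Pi.single i 1, by simpa using hi.1, by simpa using hi.2⟩
      · push Not at h1
        obtain ⟨i, hi⟩ := Function.ne_iff.mp ha.1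
        obtain ⟨j, hj⟩ := Function.ne_iff.mp hb.1
        have hbi : b i = 0 := h1 i hi
        have haj : a j = 0 := by
          by_contra h
          exact hj (h1 j h)
        refine ⟨Pi.single i 1 + Pi.single j 1, ?_, ?_⟩
        · rw [dotProduct_add]
          simpa [haj] using hi
        · rw [dotProduct_add]
          simpa [hbi] using hj
    obtain ⟨v, hav, hbv⟩ := hex
    refine ⟨D n v, ?_, ⟨ha, hav⟩, ⟨hb, hbv⟩⟩
    rw [isCircuit_dual_iff hn]
    refine ⟨v, ?_, rfl⟩
    rintro rfl
    simp at hav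

end Pool.Agent.Lib.MP_1f7bca_co
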