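import Pool.Agent.Lib.MP_1f7bca_co.K5
import Pool.Agent.Lib.MP_1f7bca_co.Princ

set_option autoImplicit false

namespace Pool.Agent.Lib.MP_1f7bca_co

open Set Matroid Module

/-- the sign character of `F_2` -/
def chi (x : ZMod 2) : ℤ := if x = 0 then 1 else -1

lemma chi_add (x y : ZMod 2) : chi (x + y) = chi x * chi y := by
  revert x y
  decide

lemma chi_zero : chi 0 = 1 := by decide

lemma chi_sum {n : ℕ} (z : Fin n → ZMod 2) :
    ∑ u : Fin n → ZMod 2, chi (u ⬝ᵥ z) = if z = 0 then 2 ^ n else 0 := by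
  split_ifs with hz
  · subst hz
    simp [chi_zero]
  · obtain ⟨h1, h2⟩ := card_dot z hz
    have h3 : ∑ u : Fin n → ZMod 2, chi (u ⬝ᵥ z) =
        ∑ u ∈ Finset.univ.filter (fun u : Fin n → ZMod 2 => u ⬝ᵥ z = 0), chi (u ⬝ᵥ z) +
        ∑ u ∈ Finset.univ.filter (fun u : Fin n → ZMod 2 => ¬ u ⬝ᵥ z = 0), chi (u ⬝ᵥ z) :=
      (Finset.sum_filter_add_sum_filter_not _ _ _).symm
    rw [h3]
    have h4 : ∑ u ∈ Finset.univ.filter (fun u : Fin n → ZMod 2 => u ⬝ᵥ z = 0), chi (u ⬝ᵥ z) =
        (2 : ℤ) ^ (n - 1) := by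
      rw [Finset.sum_congr rfl (g := fun _ => (1 : ℤ))]
      · rw [Finset.sum_const, h1]; simp
      · intro u hu
        simp only [Finset.mem_filter, Finset.mem_univ, true_and] at hu
        simp [chi, hu]
    have h5 : ∑ u ∈ Finset.univ.filter (fun u : Fin n → ZMod 2 => ¬ u ⬝ᵥ z = 0), chi (u ⬝ᵥ z) =
        -(2 : ℤ) ^ (n - 1) := by
      rw [Finset.sum_congr rfl (g := fun _ => (-1 : ℤ))]
      · simp only [ne_eq] at h2
        rw [Finset.sum_const, h2]; simp
      · intro u hu
        simp only [Finset.mem_filter, Finset.mem_univ, true_and] at hu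
        simp [chi, hu]
    rw [h4, h5]
    ring

/-- Fourier inversion on `F_2^n`: an integer function whose sums over all the sets
`{v | u ⬝ v ≠ 0}` (`u` in the ground set) and over everything vanish is a multiple of the
character of the all-ones vector. -/
lemma fourier {n : ℕ} (g : (Fin n → ZMod 2) → ℤ) (h0 : ∑ v, g v = 0)
    (h : ∀ u ∈ ground n, ∑ v ∈ Finset.univ.filter (fun v : Fin n → ZMod 2 => u ⬝ᵥ v ≠ 0), g v = 0)
    (w : Fin n → ZMod 2) : g w = chi (1 ⬝ᵥ w) * g 0 := by
  classical
  let gh : (Fin n → ZMod 2) → ℤ := fun u => ∑ v, chi (u ⬝ᵥ v) * g v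
  have hgh : ∀ u, u ≠ 1 → gh u = 0 := by
    intro u hu1
    by_cases hu0 : u = 0
    · subst hu0
      simp only [gh, zero_dotProduct, chi_zero, one_mul]
      exact h0
    · have h1 := h u ⟨hu0, hu1⟩
      have h2 : ∀ v, chi (u ⬝ᵥ v) * g v = g v - 2 * (if u ⬝ᵥ v ≠ 0 then g v else 0) := by
        intro v
        by_cases hv : u ⬝ᵥ v = 0
        · simp [chi, hv]
        · simp only [chi, hv, if_false, ne_eq, not_false_eq_true, if_true]
          ring
      simp only [gh]
      rw [Finset.sum_congr rfl (fun v _ => h2 v), Finset.sum_sub_distrib, h0, ← Finset.mul_sum,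
        ← Finset.sum_filter, h1]
      ring
  have hinv : ∀ w, (2 : ℤ) ^ n * g w = chi (1 ⬝ᵥ w) * gh 1 := by
    intro w
    have h1 : ∑ u : Fin n → ZMod 2, chi (u ⬝ᵥ w) * gh u = chi (1 ⬝ᵥ w) * gh 1 := by
      rw [Finset.sum_eq_single 1]
      · intro u _ hu
        rw [hgh u hu, mul_zero]
      · intro h
        exact absurd (Finset.mem_univ _) h
    rw [← h1]
    simp only [gh, Finset.mul_sum]
    rw [Finset.sum_comm]
    have h2 : ∀ v : Fin n → ZMod 2, ∑ u : Fin n → ZMod 2, chi (u ⬝ᵥ w) * (chi (u ⬝ᵥ v) * g v) =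
        (if w + v = 0 then 2 ^ n else 0) * g v := by
      intro v
      rw [← chi_sum, Finset.sum_mul]
      apply Finset.sum_congr rfl
      intro u _
      rw [dotProduct_add, chi_add, mul_assoc]
    rw [Finset.sum_congr rfl (fun v _ => h2 v), Finset.sum_eq_single w]
    · have : w + w = 0 := by
        funext i
        exact CharTwo.add_self_eq_zero (w i)
      rw [if_pos this]
    · intro v _ hv
      rw [if_neg, zero_mul]
      intro h
      apply hv
      have : w = -v := eq_neg_of_add_eq_zero_left h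
      rw [this]
      funext i
      exact (ZMod.neg_eq_self_mod_two (v i)).symm
    · intro h
      exact absurd (Finset.mem_univ _) h
  have h2 := hinv w
  have h3 := hinv 0
  rw [dotProduct_zero, chi_zero, one_mul] at h3
  rw [← h3] at h2
  have h4 : (2 : ℤ) ^ n ≠ 0 := by positivity
  apply mul_left_cancel₀ h4
  rw [h2]
  ring

/-- the cycles of the matroid are indexed by the vectors. -/
noncomputable def cyc {n : ℕ} (hn : 3 ≤ n) : (Fin n → ZMod 2) ≃ Cyc (pgMinus n)✶ :=
  Equiv.ofBijective (fun v => ⟨D n v, (isCycle_iff hn _).mpr ⟨v, rfl⟩⟩) (by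
    constructor
    · intro v w h
      exact D_injective hn (congrArg Subtype.val h)
    · rintro ⟨X, hX⟩
      obtain ⟨v, rfl⟩ := (isCycle_iff hn X).mp hX
      exact ⟨v, rfl⟩)

lemma cyc_val {n : ℕ} (hn : 3 ≤ n) (v : Fin n → ZMod 2) : (cyc hn v).1 = D n v := rfl

section

variable {α : Type} [Fintype α] (M : Matroid α)

open scoped Classical in
/-- exponent vector of the image of `x_D` -/
noncomputable def psi (X : Cyc M) : Option α →₀ ℕ :=
  Finsupp.single none 1 + ∑ e ∈ Finset.univ.filter (fun e => e ∈ X.1), Finsupp.single (some e) 1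

/-- exponent vector of the image of a monomial -/
noncomputable def Phi (a : Cyc M →₀ ℕ) : Option α →₀ ℕ := a.sum (fun X k => k • psi M X)

lemma cycleMap_X (K : Type*) [Field K] (X : Cyc M) :
    cycleMap K M (MvPolynomial.X X) = MvPolynomial.monomial (psi M X) 1 := by
  classical
  unfold cycleMap psi
  rw [MvPolynomial.aeval_X, MvPolynomial.monomial_single_add, pow_one, MvPolynomial.monomial_sum_one]
  rfl

lemma cycleMap_monomial (K : Type*) [Field K] (a : Cyc M →₀ ℕ) (c : K) :
    cycleMap K M (MvPolynomial.monomial a c) = MvPolynomial.monomial (Phi M a) c := by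
  have h1 : ∀ X, cycleMap K M (MvPolynomial.X X) = MvPolynomial.monomial (psi M X) 1 :=
    cycleMap_X M K
  rw [MvPolynomial.monomial_eq, map_mul, Finsupp.prod, map_prod]
  simp only [map_pow, h1, MvPolynomial.monomial_pow, one_pow]
  rw [← MvPolynomial.monomial_sum_one]
  unfold Phi
  rw [← MvPolynomial.algebraMap_eq, AlgHom.commutes, MvPolynomial.algebraMap_eq,
    MvPolynomial.C_mul_monomial, mul_one]
  rfl

lemma psi_none (X : Cyc M) : psi M X none = 1 := by
  classical
  simp [psi]

lemma psi_some [DecidableEq α] (X : Cyc M) (u : α) [Decidable (u ∈ X.1)] :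
    psi M X (some u) = if u ∈ X.1 then 1 else 0 := by
  classical
  simp only [psi, Finsupp.add_apply, Finsupp.finsetSum_apply]
  rw [Finsupp.single_apply, if_neg (by simp), zero_add]
  by_cases hu : u ∈ X.1
  · rw [if_pos hu, Finset.sum_eq_single u]
    · simp
    · intro b _ hb
      rw [Finsupp.single_apply, if_neg]
      simpa using hb
    · intro h
      exact absurd (by simpa using hu) h
  · rw [if_neg hu]
    apply Finset.sum_eq_zero
    intro b hb
    rw [Finsupp.single_apply, if_neg]
    intro h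
    rw [Option.some_inj] at h
    subst h
    exact hu (by simpa using hb)

lemma Phi_apply {ι : Type} [Fintype ι] (e : ι ≃ Cyc M) (a : Cyc M →₀ ℕ) (o : Option α) :
    Phi M a o = ∑ v, a (e v) * psi M (e v) o := by
  classical
  have : Fintype (Cyc M) := Fintype.ofEquiv _ e
  unfold Phi
  rw [Finsupp.sum_fintype _ _ (by simp), Finsupp.finsetSum_apply]
  simp only [Finsupp.smul_apply, smul_eq_mul]
  exact (Equiv.sum_comp e (fun X => a X * psi M X o)).symm

end

lemma psi_cyc_some {n : ℕ} (hn : 3 ≤ n) (v u : Fin n → ZMod 2) [Decidable (u ∈ D n v)] :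
    psi (pgMinus n)✶ (cyc hn v) (some u) = if u ∈ D n v then 1 else 0 := by
  classical
  rw [psi_some]
  by_cases h : u ∈ D n v
  · rw [if_pos h, if_pos (show u ∈ (cyc hn v).1 from h)]
  · rw [if_neg h, if_neg (show ¬ u ∈ (cyc hn v).1 from h)]

/-- exponents with the same image differ by a multiple of the character. -/
lemma Phi_eq_imp {n : ℕ} (hn : 3 ≤ n) (a b : Cyc (pgMinus n)✶ →₀ ℕ)
    (h : Phi (pgMinus n)✶ a = Phi (pgMinus n)✶ b) (w : Fin n → ZMod 2) :
    (a (cyc hn w) : ℤ) - b (cyc hn w) =
      chi (1 ⬝ᵥ w) * ((a (cyc hn 0) : ℤ) - b (cyc hn 0)) := by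
  classical
  apply fourier (fun v => (a (cyc hn v) : ℤ) - b (cyc hn v))
  · have h1 := DFunLike.congr_fun h none
    rw [Phi_apply _ (cyc hn), Phi_apply _ (cyc hn)] at h1
    simp only [psi_none, mul_one] at h1
    rw [Finset.sum_sub_distrib, sub_eq_zero]
    exact_mod_cast h1
  · intro u hu
    have h1 := DFunLike.congr_fun h (some u)
    rw [Phi_apply _ (cyc hn), Phi_apply _ (cyc hn)] at h1
    simp only [psi_cyc_some, mul_ite, mul_one, mul_zero] at h1
    rw [← Finset.sum_filter, ← Finset.sum_filter] at h1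
    have h2 : Finset.univ.filter (fun v : Fin n → ZMod 2 => u ∈ D n v) =
        Finset.univ.filter (fun v : Fin n → ZMod 2 => u ⬝ᵥ v ≠ 0) := by
      ext v
      rw [Finset.mem_filter, Finset.mem_filter]
      exact ⟨fun h => ⟨h.1, h.2.2⟩, fun h => ⟨h.1, hu, h.2⟩⟩
    rw [h2] at h1
    rw [Finset.sum_sub_distrib, sub_eq_zero]
    exact_mod_cast h1

/-- The exponent vector of a set of cycles. -/
noncomputable def expo {n : ℕ} (hn : 3 ≤ n) (P : Finset (Fin n → ZMod 2)) :
    Cyc (pgMinus n)✶ →₀ ℕ := ∑ v ∈ P, Finsupp.single (cyc hn v) 1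

lemma expo_apply {n : ℕ} (hn : 3 ≤ n) (P : Finset (Fin n → ZMod 2)) (w : Fin n → ZMod 2) :
    expo hn P (cyc hn w) = if w ∈ P then 1 else 0 := by
  classical
  unfold expo
  rw [Finsupp.finsetSum_apply]
  simp only [Finsupp.single_apply, EmbeddingLike.apply_eq_iff_eq]
  rw [Finset.sum_ite_eq' P w]

/-- vectors orthogonal to the all-ones vector -/
def Pset (n : ℕ) : Finset (Fin n → ZMod 2) := Finset.univ.filter (fun v => v ⬝ᵥ 1 = 0)

/-- vectors not orthogonal to the all-ones vector -/
def Qset (n : ℕ) : Finset (Fin n → ZMod 2) := Finset.univ.filter (fun v => v ⬝ᵥ 1 ≠ 0)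

/-- the generator -/
noncomputable def gen (K : Type*) [Field K] {n : ℕ} (hn : 3 ≤ n) :
    MvPolynomial (Cyc (pgMinus n)✶) K :=
  MvPolynomial.monomial (expo hn (Pset n)) 1 - MvPolynomial.monomial (expo hn (Qset n)) 1

lemma binom_mem_aux (K : Type*) [Field K] {n : ℕ} (hn : 3 ≤ n) (a b : Cyc (pgMinus n)✶ →₀ ℕ)
    (h : Phi (pgMinus n)✶ a = Phi (pgMinus n)✶ b) (hle : b (cyc hn 0) ≤ a (cyc hn 0)) :
    (MvPolynomial.monomial a (1 : K) - MvPolynomial.monomial b 1) ∈ Ideal.span {gen K hn} := by
  classical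
  obtain ⟨c, hc⟩ := Nat.exists_eq_add_of_le hle
  have hP : ∀ v ∈ Pset n, a (cyc hn v) = b (cyc hn v) + c := by
    intro v hv
    simp only [Pset, Finset.mem_filter, Finset.mem_univ, true_and] at hv
    have h1 := Phi_eq_imp hn a b h v
    rw [dotProduct_comm, hv, chi_zero, one_mul, hc] at h1
    push_cast at h1
    omega
  have hQ : ∀ v ∈ Qset n, b (cyc hn v) = a (cyc hn v) + c := by
    intro v hv
    simp only [Qset, Finset.mem_filter, Finset.mem_univ, true_and] at hv
    have h1 := Phi_eq_imp hn a b h v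
    rw [dotProduct_comm, show chi (v ⬝ᵥ 1) = -1 by simp [chi, hv], hc] at h1
    push_cast at h1
    omega
  have hPQ : ∀ v, v ∉ Pset n → v ∈ Qset n := by
    intro v hv
    simp only [Pset, Qset, Finset.mem_filter, Finset.mem_univ, true_and] at hv ⊢
    exact hv
  have hQP : ∀ v, v ∈ Qset n → v ∉ Pset n := by
    intro v hv
    simp only [Pset, Qset, Finset.mem_filter, Finset.mem_univ, true_and] at hv ⊢
    exact hv
  set m : Cyc (pgMinus n)✶ →₀ ℕ := a ⊓ b with hm
  have ha : a = m + c • expo hn (Pset n) := by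
    ext X
    obtain ⟨v, rfl⟩ := (cyc hn).surjective X
    rw [Finsupp.add_apply, Finsupp.smul_apply, expo_apply, hm, Finsupp.inf_apply]
    by_cases hv : v ∈ Pset n
    · have := hP v hv
      simp only [if_pos hv, smul_eq_mul, mul_one]
      rw [min_eq_right (by omega)]
      exact this
    · have := hQ v (hPQ v hv)
      simp only [if_neg hv, smul_eq_mul, mul_zero, add_zero]
      rw [min_eq_left (by omega)]
  have hb : b = m + c • expo hn (Qset n) := by
    ext X
    obtain ⟨v, rfl⟩ := (cyc hn).surjective X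
    rw [Finsupp.add_apply, Finsupp.smul_apply, expo_apply, hm, Finsupp.inf_apply]
    by_cases hv : v ∈ Qset n
    · have := hQ v hv
      simp only [if_pos hv, smul_eq_mul, mul_one]
      rw [min_eq_left (by omega)]
      exact this
    · have hvP : v ∈ Pset n := by
        by_contra h
        exact hv (hPQ v h)
      have := hP v hvP
      simp only [if_neg hv, smul_eq_mul, mul_zero, add_zero]
      rw [min_eq_right (by omega)]
  rw [Ideal.mem_span_singleton]
  have h1 : MvPolynomial.monomial a (1 : K) - MvPolynomial.monomial b 1 =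
      MvPolynomial.monomial m 1 * ((MvPolynomial.monomial (expo hn (Pset n)) 1) ^ c -
        (MvPolynomial.monomial (expo hn (Qset n)) 1) ^ c) := by
    rw [mul_sub, MvPolynomial.monomial_pow, MvPolynomial.monomial_pow, MvPolynomial.monomial_mul,
      MvPolynomial.monomial_mul, one_pow, mul_one, ← ha, ← hb]
  rw [h1]
  exact Dvd.dvd.mul_left (sub_dvd_pow_sub_pow _ _ c) _

lemma binom_mem (K : Type*) [Field K] {n : ℕ} (hn : 3 ≤ n) (a b : Cyc (pgMinus n)✶ →₀ ℕ)
    (h : Phi (pgMinus n)✶ a = Phi (pgMinus n)✶ b) :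
    (MvPolynomial.monomial a (1 : K) - MvPolynomial.monomial b 1) ∈ Ideal.span {gen K hn} := by
  rcases le_total (b (cyc hn 0)) (a (cyc hn 0)) with hle | hle
  · exact binom_mem_aux K hn a b h hle
  · have := binom_mem_aux K hn b a h.symm hle
    rw [← neg_sub]
    exact neg_mem this

lemma ker_le (K : Type*) [Field K] {n : ℕ} (hn : 3 ≤ n) :
    cycleIdeal K (pgMinus n)✶ ≤ Ideal.span {gen K hn} := by
  classical
  set M := (pgMinus n)✶ with hM
  let r : (Option (Fin n → ZMod 2) →₀ ℕ) → (Cyc M →₀ ℕ) := Function.invFun (Phi M)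
  have hr : ∀ a, Phi M (r (Phi M a)) = Phi M a := fun a => Function.apply_invFun_apply
  let ρ : MvPolynomial (Option (Fin n → ZMod 2)) K →ₗ[K] MvPolynomial (Cyc M) K :=
    (MvPolynomial.basisMonomials (Option (Fin n → ZMod 2)) K).constr K
      (fun m => MvPolynomial.monomial (r m) 1)
  have hρ : ∀ m (c : K), ρ (MvPolynomial.monomial m c) = MvPolynomial.monomial (r m) c := by
    intro m c
    have h1 : MvPolynomial.monomial m c =
        c • (MvPolynomial.basisMonomials (Option (Fin n → ZMod 2)) K) m := by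
      rw [MvPolynomial.coe_basisMonomials, MvPolynomial.smul_monomial, smul_eq_mul, mul_one]
    rw [h1, map_smul, Basis.constr_basis, MvPolynomial.smul_monomial, smul_eq_mul, mul_one]
  have key : ∀ p : MvPolynomial (Cyc M) K, p - ρ (cycleMap K M p) ∈ Ideal.span {gen K hn} := by
    intro p
    induction p using MvPolynomial.induction_on' with
    | monomial a c =>
      rw [cycleMap_monomial, hρ]
      have h1 := binom_mem K hn a (r (Phi M a)) (hr a).symm
      have h2 := Ideal.mul_mem_left (Ideal.span {gen K hn}) (MvPolynomial.C c) h1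
      rw [mul_sub, MvPolynomial.C_mul_monomial, MvPolynomial.C_mul_monomial, mul_one] at h2
      exact h2
    | add p q hp hq =>
      rw [map_add, map_add]
      have := Ideal.add_mem _ hp hq
      convert this using 1
      ring
  intro p hp
  have h1 := key p
  have h2 : cycleMap K M p = 0 := hp
  rwa [h2, map_zero, sub_zero] at h1

lemma Phi_expo {n : ℕ} (hn : 3 ≤ n) :
    Phi (pgMinus n)✶ (expo hn (Pset n)) = Phi (pgMinus n)✶ (expo hn (Qset n)) := by
  classical
  have h1ne : (1 : Fin n → ZMod 2) ≠ 0 := by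
    intro h
    have := congrFun h ⟨0, by omega⟩
    simp at this
  ext o
  rw [Phi_apply _ (cyc hn), Phi_apply _ (cyc hn)]
  simp only [expo_apply, ite_mul, one_mul, zero_mul]
  rw [← Finset.sum_filter, ← Finset.sum_filter]
  simp only [Finset.filter_mem_eq_inter, Finset.univ_inter]
  rcases o with _ | u
  · simp only [psi_none, Finset.sum_const, smul_eq_mul, mul_one]
    obtain ⟨h1, h2⟩ := card_dot (1 : Fin n → ZMod 2) h1ne
    rw [Pset, Qset, h1, h2]
  · simp only [psi_cyc_some]
    by_cases hu : u ∈ ground n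
    · obtain ⟨z, -, hz1, hzu⟩ := exists_sep hn u 1 hu.2.symm h1ne
      apply Finset.sum_bij (fun v _ => v + z)
      · intro v hv
        simp only [Pset, Qset, Finset.mem_filter, Finset.mem_univ, true_and] at hv ⊢
        rw [add_dotProduct, hv, zero_add]
        exact hz1
      · intro v _ w _ h
        exact add_right_cancel h
      · intro w hw
        simp only [Qset, Finset.mem_filter, Finset.mem_univ, true_and] at hw
        refine ⟨w + z, ?_, ?_⟩
        · simp only [Pset, Finset.mem_filter, Finset.mem_univ, true_and]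
          rw [add_dotProduct, zmod2_ne_zero hw, zmod2_ne_zero hz1]
          decide
        · rw [add_assoc]
          have : z + z = 0 := by
            funext i
            exact CharTwo.add_self_eq_zero (z i)
          rw [this, add_zero]
      · intro v _
        have h2 : u ∈ D n v ↔ u ∈ D n (v + z) := by
          simp only [D, Set.mem_ofPred_eq, dotProduct_add]
          rw [dotProduct_comm u z, hzu, add_zero]
        by_cases h3 : u ∈ D n v
        · rw [if_pos h3, if_pos (h2.mp h3)]
        · rw [if_neg h3, if_neg (fun h => h3 (h2.mpr h))]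
    · have h2 : ∀ v, u ∉ D n v := fun v h => hu (D_subset_ground n v h)
      rw [Finset.sum_eq_zero (fun v _ => if_neg (h2 v)),
        Finset.sum_eq_zero (fun v _ => if_neg (h2 v))]

lemma cycleIdeal_eq (K : Type*) [Field K] {n : ℕ} (hn : 3 ≤ n) :
    cycleIdeal K (pgMinus n)✶ = Ideal.span {gen K hn} := by
  apply le_antisymm (ker_le K hn)
  rw [Ideal.span_singleton_le_iff_mem]
  unfold cycleIdeal
  rw [RingHom.mem_ker, gen, map_sub, cycleMap_monomial, cycleMap_monomial, Phi_expo, sub_self]

lemma degree_expo {n : ℕ} (hn : 3 ≤ n) (P : Finset (Fin n → ZMod 2)) :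
    (expo hn P).degree = P.card := by
  unfold expo
  rw [map_sum]
  simp

lemma gen_homogeneous (K : Type*) [Field K] {n : ℕ} (hn : 3 ≤ n) :
    (gen K hn).IsHomogeneous (2 ^ (n - 1)) := by
  have h1ne : (1 : Fin n → ZMod 2) ≠ 0 := by
    intro h
    have := congrFun h ⟨0, by omega⟩
    simp at this
  obtain ⟨h1, h2⟩ := card_dot (1 : Fin n → ZMod 2) h1ne
  unfold gen
  apply MvPolynomial.IsHomogeneous.sub
  · apply MvPolynomial.isHomogeneous_monomial
    rw [degree_expo]
    exact h1
  · apply MvPolynomial.isHomogeneous_monomial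
    rw [degree_expo]
    exact h2

lemma gen_ne_zero (K : Type*) [Field K] {n : ℕ} (hn : 3 ≤ n) : gen K hn ≠ 0 := by
  classical
  unfold gen
  rw [sub_ne_zero]
  intro h
  have h1 := MvPolynomial.monomial_left_injective (one_ne_zero : (1 : K) ≠ 0) h
  have h2 := DFunLike.congr_fun h1 (cyc hn 0)
  rw [expo_apply, expo_apply] at h2
  simp [Pset, Qset] at h2

end Pool.Agent.Lib.MP_1f7bca_co
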